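import Pool.Agent.H25.CBase

set_option autoImplicit false

namespace Pool.Agent.Results.MP_7af251_lc.NPHard
open Pool.Agent.H11.PT Pool.Agent.H25.CB

/-- agent names -/
abbrev A := ℕ × ℕ × ℕ

/-- an acceptable pair: man, woman, his rank of her, her rank of him (smaller is better) -/
abbrev P := A × A × ℕ × ℕ

/-- every acceptable pair is listed with one pair of ranks -/
def Valid (I : List P) : Prop := ∀ e ∈ I, ∀ f ∈ I, e.1 = f.1 → e.2.1 = f.2.1 → e = f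

/-- `e` blocks `M`: both are unmatched or strictly prefer the other to their partner -/
def Blocks (M : Set P) (e : P) : Prop := e ∉ M ∧ (∀ f ∈ M, f.1 = e.1 → e.2.2.1 < f.2.2.1) ∧
  ∀ f ∈ M, f.2.1 = e.2.1 → e.2.2.2 < f.2.2.2

/-- weakly stable matchings -/
def WS (I : List P) (M : Set P) : Prop := (∀ e ∈ M, e ∈ I) ∧
  (∀ e ∈ M, ∀ f ∈ M, e.1 = f.1 ∨ e.2.1 = f.2.1 → e = f) ∧ ∀ e ∈ I, ¬ Blocks M e

/-- man-optimal weakly stable matchings -/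
def ManOpt (I : List P) (M : Set P) : Prop :=
  WS I M ∧ ∀ M', WS I M' → ∀ e ∈ M', ∃ f ∈ M, f.1 = e.1 ∧ f.2.2.1 ≤ e.2.2.1

def sg (b : Bool) : ℕ := bif b then 1 else 0
def inst (φ : F3) : List P := ((0, 0, 0), (0, 0, 0), 0, 1) :: ((0, 0, 1), (0, 0, 0), 0, 1) ::
  (((List.range (nv φ) ×ˢ List.range 2).flatMap fun p => [((0, 0, 0), (2, p.1, 0), 1, 1),
    ((1, p), (1, p), 0, 1), ((1, p), (2, p.1, 0), 2, 0), ((2, p.1, 0), (2, p.1, 0), 0, 2),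
    ((2, p.1, 0), (1, p), 1, 0), ((2, p.1, 0), (0, 0, 0), 2, 0)]) ++
  (List.range φ.length ×ˢ List.range 3 ×ˢ List.range 3).flatMap fun p =>
    [((3, p.1, p.2.1), (3, p.1, p.2.2), 0, if p.2.1 = 0 then 2 else 0),
    ((3, p.1, p.2.1), (0, 0, 0), 1, 0),
    ((1, (lit φ (3 * p.1 + p.2.1)).1, sg (lit φ (3 * p.1 + p.2.1)).2), (3, p.1, p.2.1), 1, 1)])

theorem mem {φ : F3} {e : P} : e ∈ inst φ ↔ e = ((0, 0, 0), (0, 0, 0), 0, 1) ∨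
    e = ((0, 0, 1), (0, 0, 0), 0, 1) ∨ (∃ x < nv φ, ∃ s < 2, e = ((0, 0, 0), (2, x, 0), 1, 1) ∨
    e = ((1, x, s), (1, x, s), 0, 1) ∨ e = ((1, x, s), (2, x, 0), 2, 0) ∨
    e = ((2, x, 0), (2, x, 0), 0, 2) ∨ e = ((2, x, 0), (1, x, s), 1, 0) ∨
    e = ((2, x, 0), (0, 0, 0), 2, 0)) ∨ ∃ j < φ.length, ∃ i < 3, ∃ k < 3,
    e = ((3, j, i), (3, j, k), 0, if i = 0 then 2 else 0) ∨ e = ((3, j, i), (0, 0, 0), 1, 0) ∨
    e = ((1, (lit φ (3 * j + i)).1, sg (lit φ (3 * j + i)).2), (3, j, i), 1, 1) := by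
  simp [inst, and_assoc]

theorem sg_lt (b : Bool) : sg b < 2 := by cases b <;> decide

theorem nb {M : Set P} {e : P} : ¬ Blocks M e ↔ (∃ f ∈ M, f.1 = e.1 ∧ f.2.2.1 ≤ e.2.2.1) ∨
    ∃ f ∈ M, f.2.1 = e.2.1 ∧ f.2.2.2 ≤ e.2.2.2 := by
  unfold Blocks
  refine ⟨fun h => ?_, fun h ⟨_, a, b⟩ => h.elim (fun ⟨f, c, d, e⟩ => (a f c d).not_ge e)
    fun ⟨f, c, d, e⟩ => (b f c d).not_ge e⟩
  by_contra! g
  exact h ⟨fun a => (g.1 e a rfl).false, g⟩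

def M0 (φ : F3) : Set P := {e | e ∈ inst φ ∧ e.1 = e.2.1}

theorem top {φ : F3} {e : P} (h : e ∈ inst φ) (h' : e ≠ ((0, 0, 1), (0, 0, 0), 0, 1)) :
    ∃ f ∈ M0 φ, f.1 = e.1 ∧ f.2.2.1 ≤ e.2.2.1 := by
  refine ⟨(e.1, e.1, 0, if e.1.1 ≤ 1 then 1 else if e.1.2.2 = 0 then 2 else 0), ⟨?_, rfl⟩, rfl,
    Nat.zero_le _⟩
  rcases mem.1 h with rfl | rfl | ⟨x, hx, s, hs, rfl | rfl | rfl | rfl | rfl | rfl⟩ |
    ⟨j, hj, i, hi, k, hk, rfl | rfl | rfl⟩ <;> simp [mem, lit_lt, sg_lt, *] at h' ⊢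
  all_goals first | exact ⟨0, by omega⟩ | omega | exact Nat.le_of_lt_succ (sg_lt _)

theorem ws0 (φ : F3) : WS (inst φ) (M0 φ) := by
  refine ⟨fun e h => h.1, fun e ⟨h1, h2⟩ f ⟨h3, h4⟩ h => ?_, fun e h => nb.2 ?_⟩
  · have h5 : e.1 = f.1 := h.elim id fun h => h2.trans (h.trans h4.symm)
    rcases mem.1 h1 with rfl | rfl | ⟨x, hx, s, hs, rfl | rfl | rfl | rfl | rfl | rfl⟩ |
      ⟨j, hj, i, hi, k, hk, rfl | rfl | rfl⟩ <;> simp at h2 <;>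
    rcases mem.1 h3 with rfl | rfl | ⟨x, hx, s, hs, rfl | rfl | rfl | rfl | rfl | rfl⟩ |
      ⟨j, hj, i, hi, k, hk, rfl | rfl | rfl⟩ <;> simp at h4 <;> simp_all
  · by_cases h' : e = ((0, 0, 1), (0, 0, 0), 0, 1)
    · exact .inr ⟨((0, 0, 0), (0, 0, 0), 0, 1), ⟨by simp [mem], rfl⟩, by simp [h']⟩
    · exact .inl (top h h')

theorem iff1 (φ : F3) : (¬ ∃ M, ManOpt (inst φ) M) ↔
    ∃ M, WS (inst φ) M ∧ ((0, 0, 1), (0, 0, 0), 0, 1) ∈ M := by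
  refine ⟨fun h => by_contra fun g => h ⟨_, ws0 φ, fun M hM e he => top (hM.1 e he) fun a =>
    g ⟨M, hM, a ▸ he⟩⟩, fun ⟨M, h1, h2⟩ ⟨N, h3, h4⟩ => ?_⟩
  obtain ⟨e, e1, e2, e3⟩ := h4 M h1 _ h2
  obtain ⟨f, f1, f2, f3⟩ := h4 _ (ws0 φ) ((0, 0, 0), (0, 0, 0), 0, 1) ⟨by simp [mem], rfl⟩
  have := h3.2.1 e e1 f f1
  rcases mem.1 (h3.1 e e1) with rfl | rfl | ⟨x, hx, s, hs, rfl | rfl | rfl | rfl | rfl | rfl⟩ |
      ⟨j, hj, i, hi, k, hk, rfl | rfl | rfl⟩ <;> simp at e2 <;>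
    rcases mem.1 (h3.1 f f1) with rfl | rfl | ⟨x, hx, s, hs, rfl | rfl | rfl | rfl | rfl | rfl⟩ |
      ⟨j, hj, i, hi, k, hk, rfl | rfl | rfl⟩ <;> simp at f2 f3 this

theorem fwd (φ : F3) (h : SAT3 φ) : ∃ M, WS (inst φ) M ∧ ((0, 0, 1), (0, 0, 0), 0, 1) ∈ M := by
  obtain ⟨σ, h⟩ := (sat_iff φ).1 h
  choose! c c1 c2 using h
  refine ⟨{e | e = ((0, 0, 1), (0, 0, 0), 0, 1) ∨ (∃ x < nv φ,
    e = ((1, x, sg (σ x)), (1, x, sg (σ x)), 0, 1) ∨ e = ((1, x, sg !σ x), (2, x, 0), 2, 0) ∨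
    e = ((2, x, 0), (1, x, sg !σ x), 1, 0)) ∨ ∃ j < φ.length, ∃ i < 3,
    e = ((3, j, i), (3, j, (c j + i) % 3), 0, if i = 0 then 2 else 0)}, ⟨?_, ?_, fun e h => nb.2 ?_⟩,
    .inl rfl⟩
  · rintro _ (rfl | ⟨x, hx, rfl | rfl | rfl⟩ | ⟨j, hj, i, hi, rfl⟩) <;> simp [mem, sg_lt, *]
    all_goals first | omega | exact Nat.le_of_lt_succ (sg_lt _)
  · have s : ∀ b, sg b ≠ sg !b ∧ sg (!b) ≠ sg b := by decide
    rintro _ (rfl | ⟨x, hx, rfl | rfl | rfl⟩ | ⟨j, hj, i, hi, rfl⟩) _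
      (rfl | ⟨y, hy, rfl | rfl | rfl⟩ | ⟨k, hk, l, hl, rfl⟩) <;> simp
    all_goals first | (rintro rfl; simp [s]; done) | (rintro (⟨rfl, -⟩ | rfl | ⟨rfl, -⟩) <;> simp; done) | skip
    all_goals first | (rintro (⟨rfl, -⟩ | rfl) <;> simp; done) | (rintro (rfl | ⟨rfl, -⟩) <;> simp; done) | skip
    rintro (⟨rfl, rfl⟩ | ⟨rfl, h⟩)
    · simp
    · obtain rfl : i = l := by omega
      simp
  · rcases mem.1 h with rfl | rfl | ⟨x, hx, s, hs, rfl | rfl | rfl | rfl | rfl | rfl⟩ |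
      ⟨j, hj, i, hi, k, hk, rfl | rfl | rfl⟩
    · exact .inr ⟨_, .inl rfl, by simp⟩
    · exact .inr ⟨_, .inl rfl, by simp⟩
    · exact .inr ⟨_, .inr (.inl ⟨x, hx, .inr (.inl rfl)⟩), by simp⟩
    · by_cases g : sg (σ x) = s
      · exact .inl ⟨_, .inr (.inl ⟨x, hx, .inl rfl⟩), by simp [g]⟩
      · refine .inr ⟨_, .inr (.inl ⟨x, hx, .inr (.inr rfl)⟩), ?_⟩
        cases g' : σ x <;> simp [sg, g'] at g ⊢ <;> omega
    · exact .inr ⟨_, .inr (.inl ⟨x, hx, .inr (.inl rfl)⟩), by simp⟩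
    · exact .inr ⟨_, .inr (.inl ⟨x, hx, .inr (.inl rfl)⟩), by simp⟩
    · exact .inl ⟨_, .inr (.inl ⟨x, hx, .inr (.inr rfl)⟩), by simp⟩
    · exact .inl ⟨_, .inr (.inl ⟨x, hx, .inr (.inr rfl)⟩), by simp⟩
    · exact .inl ⟨_, .inr (.inr ⟨j, hj, i, hi, rfl⟩), by simp⟩
    · exact .inl ⟨_, .inr (.inr ⟨j, hj, i, hi, rfl⟩), by simp⟩
    · by_cases g : i = c j
      · exact .inl ⟨_, .inr (.inl ⟨_, lit_lt φ (3 * j + i), .inl rfl⟩), by simp [g, c2 j hj]⟩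
      · have := c1 j hj
        refine .inr ⟨_, .inr (.inr ⟨j, hj, (i + 3 - c j) % 3, by omega, rfl⟩), ?_, ?_⟩
        · simp; omega
        · rw [if_neg (by omega)]; simp

theorem bwd (φ : F3) {M : Set P} (h : WS (inst φ) M) (hb : ((0, 0, 1), (0, 0, 0), 0, 1) ∈ M) :
    SAT3 φ := by
  classical
  obtain ⟨h1, h2, h3⟩ := h
  have m : ∀ {e f}, e ∈ M → f ∈ M → e.1 = f.1 → e = f := fun a b c => h2 _ a _ b (.inl c)
  have w : ∀ {e f}, e ∈ M → f ∈ M → e.2.1 = f.2.1 → e = f := fun a b c => h2 _ a _ b (.inr c)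
  have a1 : ∀ j < φ.length, ∀ i < 3, ∃ k < 3,
      ((3, j, i), (3, j, k), 0, if i = 0 then 2 else 0) ∈ M := fun j hj i hi => by
    rcases nb.1 (h3 ((3, j, i), (0, 0, 0), 1, 0) (mem.2 (.inr (.inr (.inr ⟨j, hj, i, hi, i, hi, by
      simp⟩))))) with ⟨f, f1, f2, f3⟩ | ⟨f, f1, f2, f3⟩
    · have := w f1 hb
      rcases mem.1 (h1 f f1) with rfl | rfl | ⟨x, hx, s, hs, rfl | rfl | rfl | rfl | rfl | rfl⟩ |
        ⟨j, hj, i, hi, k, hk, rfl | rfl | rfl⟩ <;> simp at f2 this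
      obtain ⟨rfl, rfl⟩ := f2
      exact ⟨k, hk, f1⟩
    · rw [w f1 hb f2] at f3
      simp at f3
  choose! c c1 c2 using a1
  have a2 : ∀ j < φ.length, ∀ k < 3, ∀ v, ((1, v), (3, j, k), 1, 1) ∉ M := fun j hj k hk v hv => by
    have b0 := c1 j hj 0 (by omega)
    have b1 := c1 j hj 1 (by omega)
    have b2 := c1 j hj 2 (by omega)
    have d0 := c2 j hj 0 (by omega)
    have d1 := c2 j hj 1 (by omega)
    have d2 := c2 j hj 2 (by omega)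
    have e0 := w d0 d1
    have e1 := w d0 d2
    have e2 := w d1 d2
    have e3 := w hv d0
    have e4 := w hv d1
    have e5 := w hv d2
    simp at e0 e1 e2 e3 e4 e5
    omega
  have a3 : ∀ x < nv φ, ((2, x, 0), (2, x, 0), 0, 2) ∈ M ∨
      ∃ s < 2, ((1, x, s), (2, x, 0), 2, 0) ∈ M := fun x hx => by
    rcases nb.1 (h3 ((2, x, 0), (0, 0, 0), 2, 0) (mem.2 (.inr (.inr (.inl ⟨x, hx, 0, by simp⟩)))))
      with ⟨f, f1, f2, f3⟩ | ⟨f, f1, f2, f3⟩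
    · have := w f1 hb
      rcases mem.1 (h1 f f1) with rfl | rfl | ⟨x, hx, s, hs, rfl | rfl | rfl | rfl | rfl | rfl⟩ |
        ⟨j, hj, i, hi, k, hk, rfl | rfl | rfl⟩ <;> simp at f2 this <;> subst f2
      · exact .inl f1
      rcases nb.1 (h3 ((1, x, s), (2, x, 0), 2, 0) (mem.2 (.inr (.inr (.inl ⟨x, hx, s, hs, by
        simp⟩))))) with ⟨g, g1, g2, g3⟩ | ⟨g, g1, g2, g3⟩ <;> have := w g1 f1 <;>
      rcases mem.1 (h1 g g1) with rfl | rfl | ⟨x, hx, s, hs, rfl | rfl | rfl | rfl | rfl | rfl⟩ |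
        ⟨j, hj, i, hi, k, hk, rfl | rfl | rfl⟩ <;> simp at g2 g3 this
      · exact (this g2.1 g2.2).elim
      · exact .inr ⟨s, hs, g2.1 ▸ g1⟩
      · exact (a2 j hj i hi _ g1).elim
      · exact .inr ⟨s, hs, g2 ▸ g1⟩
    · rw [w f1 hb f2] at f3
      simp at f3
  have a4 : ∀ x < nv φ, ∃ s < 2, ((1, x, s), (2, x, 0), 2, 0) ∈ M := fun x hx =>
    (a3 x hx).resolve_left fun d => by
    rcases nb.1 (h3 ((0, 0, 0), (2, x, 0), 1, 1) (mem.2 (.inr (.inr (.inl ⟨x, hx, 0, by simp⟩)))))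
      with ⟨f, f1, f2, f3⟩ | ⟨f, f1, f2, f3⟩
    · have := w f1 hb
      rcases mem.1 (h1 f f1) with rfl | rfl | ⟨x, hx, s, hs, rfl | rfl | rfl | rfl | rfl | rfl⟩ |
        ⟨j, hj, i, hi, k, hk, rfl | rfl | rfl⟩ <;> simp at f2 this
      rcases a3 x hx with g | ⟨s, -, g⟩ <;> simpa using w f1 g
    · rw [w f1 d f2] at f3
      simp at f3
  refine (sat_iff φ).2 ⟨fun x => decide (((1, x, 0), (2, x, 0), 2, 0) ∈ M), fun j hj =>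
    ⟨c j 0, c1 j hj 0 (by omega), ?_⟩⟩
  obtain ⟨s, s1, s2⟩ := a4 _ (lit_lt φ (3 * j + c j 0))
  rcases nb.1 (h3 _ (mem.2 (.inr (.inr (.inr ⟨j, hj, _, c1 j hj 0 (by omega), 0, by omega,
    .inr (.inr rfl)⟩))))) with ⟨f, f1, f2, f3⟩ | ⟨f, f1, f2, f3⟩
  · have b : ((1, (lit φ (3 * j + c j 0)).1, sg (lit φ (3 * j + c j 0)).2),
        (2, (lit φ (3 * j + c j 0)).1, 0), 2, 0) ∉ M := fun g => by
      rw [m f1 g f2] at f3
      simp at f3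
    cases g : (lit φ (3 * j + c j 0)).2 <;> rw [g] at b
    · exact decide_eq_false b
    · interval_cases s
      · exact decide_eq_true s2
      · exact (b s2).elim
  · rw [w f1 (c2 j hj 0 (by omega)) f2] at f3
    simp at f3

theorem result : NPHard fun I : List P => Valid I ∧ ¬ ∃ M, ManOpt I M := by
  refine (hard_SAT3.hardFor.red inst (by unfold inst sg; fun_prop) fun φ _ => ⟨?_, ?_⟩).npHard
  · intro e h1 f h2 h3 h4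
    rcases mem.1 h1 with rfl | rfl | ⟨x, hx, s, hs, rfl | rfl | rfl | rfl | rfl | rfl⟩ |
      ⟨j, hj, i, hi, k, hk, rfl | rfl | rfl⟩ <;>
    rcases mem.1 h2 with rfl | rfl | ⟨x, hx, s, hs, rfl | rfl | rfl | rfl | rfl | rfl⟩ |
      ⟨j, hj, i, hi, k, hk, rfl | rfl | rfl⟩ <;> simp at h3 h4 <;> simp_all
  · rw [iff1]
    exact ⟨fwd φ, fun ⟨M, a, b⟩ => bwd φ a b⟩

end Pool.Agent.Results.MP_7af251_lc.NPHard
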